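import Pool.Agent.H606.OS.Stm

open MeasureTheory Filter Topology Finset
open Pool.Agent.H606.OS

namespace Pool.Agent.H643.OS.W1

lemma ka_nonneg (x : ℝ) : 0 ≤ ka x := by
  unfold ka
  positivity

lemma nice_ka (c p : ℝ) (hc : 0 < c) : Nice (fun t => ka (c * (p - t))) := by
  refine ⟨?_, 1 + 2 * p ^ 2 + 2 / c ^ 2, fun t => ?_⟩
  · unfold ka
    refine continuous_const.div (by fun_prop) fun t => ?_
    positivity
  · rw [abs_of_nonneg (ka_nonneg _)]
    unfold ka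
    rw [mul_one_div, div_le_div_iff₀ (by positivity) (by positivity)]
    have h1 : 2 / c ^ 2 * (c * (p - t)) ^ 2 = 2 * (p - t) ^ 2 := by
      field_simp
    have h2 : 0 ≤ 2 / c ^ 2 := by positivity
    have h3 : 0 ≤ (1 + 2 * p ^ 2) * (c * (p - t)) ^ 2 := by positivity
    nlinarith [sq_nonneg (2 * p - t)]

lemma nice_sum (hNICE : S_NICE) {ι : Type} (Z : Finset ι) (f : ι → ℝ → ℝ)
    (hf : ∀ s, Nice (f s)) : Nice (fun t => ∑ s ∈ Z, f s t) := by
  classical
  induction Z using Finset.induction_on with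
  | empty =>
    refine ⟨?_, 0, fun t => ?_⟩
    · simpa using continuous_const
    · simp
  | insert a Z ha ih =>
    simp only [Finset.sum_insert ha]
    exact hNICE.2.2.1 _ _ (hf a) ih

/-- the mean square of a field dominated by a sum of kernels -/
lemma key (hNICE : S_NICE) {C2 : ℝ}
    (hL2 : ∀ (ι : Type) (Z : Finset ι) (w p : ι → ℝ) (L c : ℝ),
      0 < c → c ≤ L → (∀ s ∈ Z, 0 ≤ w s) →
      ∫ t : ℝ, (∑ s ∈ Z, w s * ka (c * (p s - t))) ^ 2 ≤
        C2 * (L / c) ^ 2 * ∫ t : ℝ, wn Z w p L t ^ 2)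
    (Z : Finset ℂ) (w : ℂ → ℝ) {L b : ℝ} (hL0 : 0 < L) (hb : 0 < b) (hb1 : b ≤ 1)
    (hw : ∀ s ∈ Z, 0 ≤ w s) (F : ℝ → ℝ) (A : ℝ)
    (hF : ∀ t, |F t| ≤ A * ∑ s ∈ Z, w s * ka (b * L * (s.im - t))) :
    ∫ t : ℝ, F t ^ 2 ≤ A ^ 2 * (C2 * (1 / b) ^ 2 * ∫ t : ℝ, wn Z w Complex.im L t ^ 2) := by
  have hc : 0 < b * L := mul_pos hb hL0
  have h1 := hL2 ℂ Z w Complex.im L (b * L) hc (by nlinarith) hw
  have h2 : L / (b * L) = 1 / b := by
    field_simp
  rw [h2] at h1
  have hn : Nice (fun t => ∑ s ∈ Z, w s * ka (b * L * (s.im - t))) :=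
    nice_sum hNICE Z _ fun s => hNICE.2.2.2.1 _ _ (nice_ka _ _ hc)
  have hn2 : Integrable (fun t => (∑ s ∈ Z, w s * ka (b * L * (s.im - t))) ^ 2) := by
    have := hNICE.2.2.2.2.1 _ (hNICE.2.1 _ _ hn hn)
    refine this.congr (Filter.Eventually.of_forall fun t => ?_)
    show _ * _ = _ ^ 2
    rw [sq]
  calc ∫ t : ℝ, F t ^ 2 ≤ ∫ t : ℝ, A ^ 2 * (∑ s ∈ Z, w s * ka (b * L * (s.im - t))) ^ 2 := by
        refine integral_mono_of_nonneg (Filter.Eventually.of_forall fun t => sq_nonneg _)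
          (hn2.const_mul _) (Filter.Eventually.of_forall fun t => ?_)
        show F t ^ 2 ≤ A ^ 2 * _ ^ 2
        rw [← mul_pow, ← sq_abs]
        exact pow_le_pow_left₀ (abs_nonneg _) (hF t) 2
    _ = A ^ 2 * ∫ t : ℝ, (∑ s ∈ Z, w s * ka (b * L * (s.im - t))) ^ 2 := by
        rw [integral_const_mul]
    _ ≤ _ := mul_le_mul_of_nonneg_left h1 (sq_nonneg _)

lemma wt_ge (T : ℝ) (s : ℂ) : (Real.log T * (s.re - 1 / 2)) ^ 2 *
    Real.exp (Real.log T * |s.re - 1 / 2| / 4) ≤ wt T s := by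
  unfold wt
  linarith

lemma wt_nonneg (T : ℝ) (s : ℂ) : 0 ≤ wt T s := by
  unfold wt
  positivity

/-- `v⁴ e^{|v|}` for `v = b y`, `b ≤ 1/12` -/
lemma vbound {b y : ℝ} (hb : 0 < b) (hb1 : b ≤ 1 / 12) :
    (b * y) ^ 4 * Real.exp |b * y| ≤ 72 * b ^ 4 * (y ^ 2 * Real.exp (|y| / 4)) := by
  have h1 : |b * y| ≤ |y| / 12 := by
    rw [abs_mul, abs_of_pos hb]
    nlinarith [abs_nonneg y]
  have h2 : y ^ 2 ≤ 72 * Real.exp (|y| / 6) := by
    have h3 := Real.quadratic_le_exp_of_nonneg (x := |y| / 6) (by positivity)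
    have h4 : |y| ^ 2 = y ^ 2 := sq_abs y
    nlinarith [abs_nonneg y]
  have h3 : Real.exp |b * y| ≤ Real.exp (|y| / 12) := Real.exp_le_exp.2 h1
  have h4 : Real.exp (|y| / 6) * Real.exp (|y| / 12) = Real.exp (|y| / 4) := by
    rw [← Real.exp_add]
    congr 1
    ring
  calc (b * y) ^ 4 * Real.exp |b * y| ≤ (b * y) ^ 4 * Real.exp (|y| / 12) :=
        mul_le_mul_of_nonneg_left h3 (by positivity)
    _ = b ^ 4 * y ^ 2 * (y ^ 2) * Real.exp (|y| / 12) := by ring
    _ ≤ b ^ 4 * y ^ 2 * (72 * Real.exp (|y| / 6)) * Real.exp (|y| / 12) := by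
        apply mul_le_mul_of_nonneg_right _ (Real.exp_pos _).le
        exact mul_le_mul_of_nonneg_left h2 (by positivity)
    _ = 72 * b ^ 4 * (y ^ 2 * (Real.exp (|y| / 6) * Real.exp (|y| / 12))) := by ring
    _ = _ := by rw [h4]

theorem t_W1 (hFJ : S_FJ) (hFC : S_FC) (hNICE : S_NICE) (hL2K : S_L2K) : S_W1 := by
  obtain ⟨C1, hC1, -, -, -, -, -, -, -, hpp⟩ := hFJ
  obtain ⟨C3, hC3, -, hfc, -⟩ := hFC
  obtain ⟨C2, hC2, hL2⟩ := hL2K
  intro C0 hC0
  refine ⟨C1 ^ 2 * C2 * C0 + 5184 * C3 ^ 2 * C2 * C0, by positivity, ?_⟩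
  intro D b hb hb1
  filter_upwards [D.w2, eventually_gt_atTop 1] with T hw2 hT1
  set L := Real.log T with hLdef
  have hL0 : 0 < L := Real.log_pos hT1
  have hT0 : 0 < T := by linarith
  set Z := zw D.ZG T with hZ
  set w : ℂ → ℝ := fun s => D.m s * wt T s with hw
  have hw0 : ∀ s, 0 ≤ w s := fun s => mul_nonneg (D.hm s) (wt_nonneg T s)
  have hb1' : b ≤ 1 := by linarith
  constructor
  · have hF : ∀ t, |QF Z D.m T b t| ≤
        (C1 * b ^ 2 / 2) * ∑ s ∈ Z, w s * ka (b * L * (s.im - t)) := by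
      intro t
      unfold QF
      rw [Finset.mul_sum]
      refine (Finset.abs_sum_le_sum_abs _ _).trans (Finset.sum_le_sum fun s _ => ?_)
      rw [← hLdef, abs_mul, abs_of_nonneg (D.hm s), abs_mul, abs_of_nonneg (by positivity)]
      have h1 := hpp (b * L * (s.im - t))
      have h2 : (L * (s.re - 1 / 2)) ^ 2 ≤ wt T s := by
        refine le_trans ?_ (wt_ge T s)
        have h3 : 1 ≤ Real.exp (Real.log T * |s.re - 1 / 2| / 4) :=
          Real.one_le_exp (by rw [← hLdef]; positivity)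
        rw [← hLdef] at h3 ⊢
        exact le_mul_of_one_le_right (sq_nonneg _) h3
      have h4 : 0 ≤ ka (b * L * (s.im - t)) := ka_nonneg _
      have h5 : (b * L * (s.re - 1 / 2)) ^ 2 / 2 = b ^ 2 / 2 * (L * (s.re - 1 / 2)) ^ 2 := by ring
      rw [h5]
      calc D.m s * (b ^ 2 / 2 * (L * (s.re - 1 / 2)) ^ 2 * |pp (b * L * (s.im - t))|) ≤
          D.m s * (b ^ 2 / 2 * wt T s * (C1 * ka (b * L * (s.im - t)))) := by
            apply mul_le_mul_of_nonneg_left _ (D.hm s)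
            apply mul_le_mul _ h1 (abs_nonneg _) (mul_nonneg (by positivity) (wt_nonneg T s))
            exact mul_le_mul_of_nonneg_left h2 (by positivity)
        _ = _ := by
            rw [hw]
            ring
    have h1 := key hNICE hL2 Z w hL0 hb hb1' (fun s _ => hw0 s) _ _ hF
    refine h1.trans ?_
    have h2 : (C1 * b ^ 2 / 2) ^ 2 * (C2 * (1 / b) ^ 2 * ∫ t : ℝ, wn Z w Complex.im L t ^ 2) ≤
        (C1 * b ^ 2 / 2) ^ 2 * (C2 * (1 / b) ^ 2 * (C0 * T)) :=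
      mul_le_mul_of_nonneg_left (mul_le_mul_of_nonneg_left hw2 (by positivity)) (by positivity)
    refine h2.trans ?_
    have h3 : (C1 * b ^ 2 / 2) ^ 2 * (C2 * (1 / b) ^ 2 * (C0 * T)) =
        (C1 ^ 2 * C2 * C0 / 4) * b ^ 2 * T := by
      field_simp
      ring
    rw [h3]
    apply mul_le_mul_of_nonneg_right _ hT0.le
    apply mul_le_mul_of_nonneg_right _ (by positivity)
    have h4 : 0 ≤ 5184 * C3 ^ 2 * C2 * C0 := by positivity
    have h5 : 0 ≤ C1 ^ 2 * C2 * C0 := by positivity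
    linarith
  · have hF : ∀ t, |CF Z D.m T b t - AF Z D.m T b t - QF Z D.m T b t| ≤
        (72 * C3 * b ^ 4) * ∑ s ∈ Z, w s * ka (b * L * (s.im - t)) := by
      intro t
      unfold CF AF QF
      rw [← Finset.sum_sub_distrib, ← Finset.sum_sub_distrib, Finset.mul_sum]
      refine (Finset.abs_sum_le_sum_abs _ _).trans (Finset.sum_le_sum fun s _ => ?_)
      rw [← hLdef, ← mul_sub, ← mul_sub, abs_mul, abs_of_nonneg (D.hm s)]
      have h1 := hfc (b * L * (s.im - t)) (b * L * (s.re - 1 / 2))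
      have h4 : 0 ≤ ka (b * L * (s.im - t)) := ka_nonneg _
      have h2 : (b * L * (s.re - 1 / 2)) ^ 4 * Real.exp |b * L * (s.re - 1 / 2)| ≤
          72 * b ^ 4 * wt T s := by
        have h5 := vbound (y := L * (s.re - 1 / 2)) hb hb1
        have h6 : b * (L * (s.re - 1 / 2)) = b * L * (s.re - 1 / 2) := by ring
        rw [h6] at h5
        refine h5.trans (mul_le_mul_of_nonneg_left ?_ (by positivity))
        have h7 := wt_ge T s
        rw [abs_mul, abs_of_pos hL0]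
        exact h7
      calc D.m s * |fc (b * L * (s.im - t)) (b * L * (s.re - 1 / 2)) - fj (b * L * (s.im - t)) -
            (b * L * (s.re - 1 / 2)) ^ 2 / 2 * pp (b * L * (s.im - t))| ≤
          D.m s * (C3 * (72 * b ^ 4 * wt T s) * ka (b * L * (s.im - t))) := by
            apply mul_le_mul_of_nonneg_left _ (D.hm s)
            refine h1.trans ?_
            apply mul_le_mul_of_nonneg_right _ h4
            exact mul_le_mul_of_nonneg_left h2 hC3.le
        _ = _ := by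
            rw [hw]
            ring
    have h1 := key hNICE hL2 Z w hL0 hb hb1' (fun s _ => hw0 s) _ _ hF
    refine h1.trans ?_
    have h2 : (72 * C3 * b ^ 4) ^ 2 * (C2 * (1 / b) ^ 2 * ∫ t : ℝ, wn Z w Complex.im L t ^ 2) ≤
        (72 * C3 * b ^ 4) ^ 2 * (C2 * (1 / b) ^ 2 * (C0 * T)) :=
      mul_le_mul_of_nonneg_left (mul_le_mul_of_nonneg_left hw2 (by positivity)) (by positivity)
    refine h2.trans ?_
    have h3 : (72 * C3 * b ^ 4) ^ 2 * (C2 * (1 / b) ^ 2 * (C0 * T)) =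
        (5184 * C3 ^ 2 * C2 * C0) * b ^ 6 * T := by
      field_simp
      ring
    rw [h3]
    apply mul_le_mul_of_nonneg_right _ hT0.le
    apply mul_le_mul_of_nonneg_right _ (by positivity)
    have h5 : 0 ≤ C1 ^ 2 * C2 * C0 := by positivity
    linarith

end Pool.Agent.H643.OS.W1
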